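import Mathlib

namespace Pool.Agent.Results.MP_903317_co.Vega
open SimpleGraph

/-- `G ∈ F(k,2)`: `k`-regular, not bipartite, diameter exactly 2 and girth exactly 4. -/
def InF {V : Type} (k : ℕ) (G : SimpleGraph V) : Prop :=
  (∀ v, (G.neighborSet v).ncard = k) ∧ ¬ G.IsBipartite ∧ G.ediam = 2 ∧ G.egirth = 4

/-- `G_k(p,q)` on `ℤ/(3p-1)q`: `i ~ j` iff `i - j ≡ 1 + 3t (mod 3p-1)` for some `t < p`. -/
def Gk (p q : ℕ) : SimpleGraph (ZMod ((3 * p - 1) * q)) :=
  SimpleGraph.fromRel fun i j => ∃ t, t < p ∧ (i - j).val % (3 * p - 1) = (1 + 3 * t) % (3 * p - 1)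

def A (v : ℕ) : ℕ := ([29391088, 29392768, 29392768, 29392768, 235374337, 235374337, 235374337,
  235372559, 808976510, 808976510, 808976510, 4261412879, 4261412879, 4261412879, 4261412879,
  4055892208, 4055892208, 4055892208, 4055892208, 3485468416, 3485468416, 3485468416, 4161551,
  4161551, 4161551, 3700976, 3700976, 3700976, 524032, 524032, 4192256, 4192256] : List ℕ).getD v 0

lemma A_symm : ∀ u v : Fin 32, (A u).testBit v = (A v).testBit u := by decide +kernel
lemma A_irr : ∀ u : Fin 32, (A u).testBit u = false := by decide +kernel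

def H : SimpleGraph (Fin 32) where
  Adj u v := (A u).testBit v = true
  symm := ⟨fun u v h => A_symm u v ▸ h⟩
  loopless := ⟨fun u h => by rw [A_irr] at h; exact absurd h (by decide)⟩

instance : DecidableRel H.Adj := fun u v => inferInstanceAs (Decidable ((A u).testBit v = true))

lemma reg : ∀ v, (Finset.univ.filter (H.Adj v)).card = 11 := by decide +kernel
lemma tri : ∀ u v : Fin 32, (A u).testBit v = true → A u &&& A v = 0 := by decide +kernel
lemma two : ∀ u v, u = v ∨ H.Adj u v ∨ ∃ w, H.Adj u w ∧ H.Adj w v := by decide +kernel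

def B (i j : ZMod 32) : Bool := decide ((i - j).val % 3 = 1)

lemma gk_adj (i j : ZMod ((3 * 11 - 1) * 1)) : (Gk 11 1).Adj i j ↔ B i j = true := by
  unfold Gk
  rw [fromRel_adj]
  revert i j
  show ∀ i j : ZMod 32, (i ≠ j ∧ ((∃ t, t < 11 ∧ (i - j).val % 32 = (1 + 3 * t) % 32) ∨
    ∃ t, t < 11 ∧ (j - i).val % 32 = (1 + 3 * t) % 32)) ↔ B i j = true
  decide +kernel

lemma twinfree : ∀ i j : ZMod 32, (∀ z, B i z = B j z) → i = j := by decide +kernel

lemma inF : InF 11 H := by
  refine ⟨fun v => ?_, ?_, le_antisymm (ediam_le_of_edist_le fun u v => ?_) ?_, le_antisymm ?_ ?_⟩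
  · rw [← reg v, ← Set.ncard_coe_finset]
    congr 1; ext w; simp
  · rintro ⟨c⟩
    have h1 := c.valid (show H.Adj 0 4 by decide +kernel)
    have h2 := c.valid (show H.Adj 4 8 by decide +kernel)
    have h3 := c.valid (show H.Adj 8 1 by decide +kernel)
    have h4 := c.valid (show H.Adj 1 7 by decide +kernel)
    have h5 := c.valid (show H.Adj 7 0 by decide +kernel)
    simp only [ne_eq, Fin.ext_iff] at h1 h2 h3 h4 h5
    omega
  · rcases two u v with rfl | h | ⟨w, h1, h2⟩
    · simp
    · rw [edist_eq_one_iff_adj.2 h]; norm_num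
    · exact edist_le (Walk.cons h1 (Walk.cons h2 Walk.nil))
  · refine le_trans ?_ (edist_le_ediam (u := 0) (v := 1))
    have : ¬ H.edist 0 1 ≤ 1 := by rw [edist_le_one_iff_adj_or_eq]; decide +kernel
    exact Order.add_one_le_of_lt (not_le.1 this)
  · have h : (Walk.cons (show H.Adj 1 7 by decide +kernel) (Walk.cons (show H.Adj 7 2 by decide +kernel)
        (Walk.cons (show H.Adj 2 8 by decide +kernel) (Walk.cons (show H.Adj 8 1 by decide +kernel)
        Walk.nil)))).IsCycle := by
      rw [Walk.isCycle_def]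
      refine ⟨⟨by decide⟩, by simp, by decide⟩
    exact egirth_le_length h
  · rw [le_egirth]
    intro a w hw
    have h3 := hw.three_le_length
    have : w.length ≠ 3 := by
      intro h
      obtain ⟨s, hs⟩ := is3Clique_iff_exists_cycle_length_three.2 ⟨a, w, hw, h⟩
      obtain ⟨x, y, z, hxy, hxz, hyz, -⟩ := is3Clique_iff.1 hs
      have := congrArg (fun m => m.testBit z) (tri x y hxy)
      simp only [Nat.testBit_and, Nat.zero_testBit] at this
      rw [show (A x).testBit z = true from hxz, show (A y).testBit z = true from hyz] at this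
      exact absurd this (by decide)
    exact_mod_cast (show 4 ≤ w.length by omega)

theorem result : ∃ k : ℕ, 2 ≤ k ∧ 5 ≤ k.minFac ∧ ∃ G : SimpleGraph (Fin (3 * k - k / k.minFac)),
    InF k G ∧ IsEmpty (G ≃g Gk k.minFac (k / k.minFac)) := by
  have e : Nat.minFac 11 = 11 := by norm_num
  refine ⟨11, by norm_num, by rw [e]; norm_num, ?_⟩
  rw [e]
  refine ⟨H, inF, ⟨fun f => ?_⟩⟩
  have f' : H ≃g Gk 11 1 := f
  have : f' 1 = f' 2 := by
    apply twinfree
    intro z
    obtain ⟨w, rfl⟩ := f'.surjective z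
    rw [Bool.eq_iff_iff, ← gk_adj, ← gk_adj, f'.map_adj_iff, f'.map_adj_iff]
    rfl
  exact absurd (f'.injective this) (by decide)

end Pool.Agent.Results.MP_903317_co.Vega
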